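import Pool.Agent.Y920.QB.Lin

set_option autoImplicit false

/-!
# Project QB: nondegenerate parts (job QB-NDG)
-/

namespace Pool.Agent.Y438.QB

open Module Pool.Agent.Y920.QB

theorem t_NDG : Pool.Agent.Y920.QB.S_NDG := by
  intro V K _ _ _ _ _ _ U β D hβ n θ hθ hdim
  classical
  have hVf : Module.Finite (ZMod 2) V := Module.Finite.of_finite
  have hKf : Module.Finite (ZMod 2) K := Module.Finite.of_finite
  -- coordinates
  have hker : LinearMap.ker (Fintype.linearCombination (ZMod 2) θ) = ⊥ :=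
    LinearMap.ker_eq_bot.2 hθ.fintypeLinearCombination_injective
  obtain ⟨g, hg⟩ := LinearMap.exists_leftInverse_of_injective _ hker
  have hgθ : ∀ i j, g (θ i) j = if i = j then 1 else 0 := by
    intro i j
    have h1 := congrArg (fun f => f (Pi.single i 1)) hg
    simp only [LinearMap.comp_apply, LinearMap.id_apply] at h1
    rw [Fintype.linearCombination_apply_single, one_smul] at h1
    rw [h1, Pi.single_apply]
    simp [eq_comm]
  obtain ⟨W, hWd⟩ : ∃ W : Fin n → Submodule (ZMod 2) U,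
      W = fun i => UE β (Submodule.span (ZMod 2) {θ i}) := ⟨_, rfl⟩
  obtain ⟨T, hT⟩ : ∃ T : Fin n → (U →ₗ[ZMod 2] V →ₗ[ZMod 2] ZMod 2),
      ∀ i u x, T i u x = g (β u x) i :=
    ⟨fun i => β.compr₂ ((LinearMap.proj i) ∘ₗ g), fun i u x => rfl⟩
  have hW : ∀ i (u : U), u ∈ W i → ∀ x : V, β u x = T i u x • θ i := by
    intro i u hu x
    rw [hWd] at hu
    obtain ⟨c, hc⟩ := Submodule.mem_span_singleton.1 (hu x)
    rw [hT, ← hc, map_smul, Pi.smul_apply, hgθ, if_pos rfl, smul_eq_mul, mul_one]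
  have horth : ∀ i j, i ≠ j → ∀ u ∈ W i, ∀ v ∈ W j, β u (v : V) = 0 := by
    intro i j hij u hu v hv
    have h1 := hW i u hu v
    have h2 := hW j v hv u
    have h3 : T i u v = 0 := by
      rw [hT, hβ.symm u v, h2, map_smul, Pi.smul_apply, hgθ, if_neg (Ne.symm hij), smul_zero]
    rw [h1, h3, zero_smul]
  have hTinj : ∀ i, ∀ u ∈ W i, (∀ x, T i u x = 0) → u = 0 := by
    intro i u hu h
    refine hβ.inj u fun x => ?_
    rw [hW i u hu x, h, zero_smul]
  -- the sum of the `W i` is direct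
  obtain ⟨S, hS⟩ : ∃ S : ((i : Fin n) → W i) →ₗ[ZMod 2] U,
      ∀ w, S w = ∑ i, (w i : U) :=
    ⟨∑ i, (W i).subtype ∘ₗ LinearMap.proj i, fun w => by
      rw [LinearMap.sum_apply]
      rfl⟩
  have hSinj : Function.Injective S := by
    rw [injective_iff_map_eq_zero]
    intro w hw
    rw [hS] at hw
    funext i
    apply Subtype.ext
    refine hTinj i _ (w i).2 fun x => ?_
    have h1 : ∑ j, β (w j : U) x = 0 := by
      rw [← LinearMap.sum_apply, ← map_sum, hw, map_zero, LinearMap.zero_apply]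
    have h2 := congrArg (fun y => g y i) h1
    simp only [map_sum, Finset.sum_apply, map_zero, Pi.zero_apply] at h2
    rw [Finset.sum_eq_single i] at h2
    · rw [hT]
      exact h2
    · intro j _ hji
      rw [hW j _ (w j).2 x, map_smul, Pi.smul_apply, hgθ, if_neg hji, smul_zero]
    · intro h
      exact absurd (Finset.mem_univ i) h
  obtain ⟨R, hR⟩ : ∃ R : Submodule (ZMod 2) V, R = LinearMap.range (U.subtype ∘ₗ S) := ⟨_, rfl⟩
  have hRdim : finrank (ZMod 2) R = ∑ i, finrank (ZMod 2) (W i) := by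
    rw [hR, LinearMap.finrank_range_of_inj (f := U.subtype ∘ₗ S)
      (fun a b h => hSinj (Subtype.ext h)), Module.finrank_pi_fintype]
  have hann : finrank (ZMod 2) R.dualAnnihilator ≤ D := by
    have h1 := Subspace.finrank_add_finrank_dualAnnihilator_eq R
    rw [hRdim] at h1
    have h2 : finrank (ZMod 2) V ≤ ∑ i, finrank (ZMod 2) (W i) + D := by
      rw [hWd]
      exact hdim
    omega
  -- the radicals
  obtain ⟨rad, hrad⟩ : ∃ rad : Fin n → Submodule (ZMod 2) U,
      rad = fun i => W i ⊓ Submodule.comap (T i) R.dualAnnihilator := ⟨_, rfl⟩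
  have hradW : ∀ i, rad i ≤ W i := fun i => by rw [hrad]; exact inf_le_left
  have hmemR : ∀ i, ∀ v ∈ W i, (v : V) ∈ R := by
    intro i v hv
    rw [hR]
    refine ⟨Pi.single i ⟨v, hv⟩, ?_⟩
    show ((S (Pi.single i ⟨v, hv⟩) : U) : V) = v
    congr 1
    rw [hS, Finset.sum_eq_single i]
    · rw [Pi.single_eq_same]
    · intro j _ hji
      rw [Pi.single_eq_of_ne hji]
      rfl
    · intro h
      exact absurd (Finset.mem_univ i) h
  have hrad1 : ∀ i, ∀ u ∈ rad i, ∀ v ∈ W i, β u (v : V) = 0 := by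
    intro i u hu v hv
    rw [hrad] at hu
    have h1 : T i u ∈ R.dualAnnihilator := hu.2
    rw [Submodule.mem_dualAnnihilator] at h1
    rw [hW i u hu.1, h1 _ (hmemR i v hv), zero_smul]
  have hrad2 : ∀ i, ∀ u ∈ W i, (∀ v ∈ W i, β u (v : V) = 0) → u ∈ rad i := by
    intro i u hu h
    rw [hrad]
    refine ⟨hu, ?_⟩
    show T i u ∈ R.dualAnnihilator
    rw [Submodule.mem_dualAnnihilator]
    intro y hy
    rw [hR] at hy
    obtain ⟨w, rfl⟩ := hy
    have e : (U.subtype ∘ₗ S) w = ∑ j, ((w j : U) : V) := by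
      rw [LinearMap.comp_apply, hS, map_sum]
      rfl
    rw [e, hT, map_sum, map_sum, Finset.sum_apply]
    refine Finset.sum_eq_zero fun j _ => ?_
    by_cases hj : i = j
    · subst hj
      rw [h _ (w i).2, map_zero, Pi.zero_apply]
    · rw [horth i j hj u hu _ (w j).2, map_zero, Pi.zero_apply]
  have hraddim : ∀ i, finrank (ZMod 2) (rad i) ≤ D := by
    intro i
    refine le_trans ?_ hann
    have h0 : ∀ u ∈ rad i, T i u ∈ R.dualAnnihilator := by
      intro u hu
      rw [hrad] at hu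
      exact hu.2
    obtain ⟨f, hf⟩ : ∃ f : rad i →ₗ[ZMod 2] R.dualAnnihilator, ∀ u, (f u : V →ₗ[ZMod 2] ZMod 2) =
        T i (u : U) :=
      ⟨((T i).domRestrict (rad i)).codRestrict R.dualAnnihilator (fun u => h0 u u.2),
        fun u => rfl⟩
    refine LinearMap.finrank_le_finrank_of_injective (f := f) ?_
    rw [injective_iff_map_eq_zero]
    intro u hu
    apply Subtype.ext
    refine hTinj i _ (hradW i u.2) fun x => ?_
    rw [← hf, hu]
    rfl
  -- complements
  have hL : ∀ i, ∃ L : Submodule (ZMod 2) U, L ≤ W i ∧ L ⊔ rad i = W i ∧ L ⊓ rad i = ⊥ := by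
    intro i
    obtain ⟨C, hC⟩ := Submodule.exists_isCompl (rad i)
    refine ⟨C ⊓ W i, inf_le_right, ?_, ?_⟩
    · rw [sup_comm, ← sup_inf_assoc_of_le C (hradW i), hC.sup_eq_top, top_inf_eq]
    · rw [inf_right_comm, inf_comm C, hC.inf_eq_bot, bot_inf_eq]
  choose L hLW hLsup hLinf using hL
  have hLdim : ∀ i, finrank (ZMod 2) (W i) ≤ finrank (ZMod 2) (L i) + D := by
    intro i
    have h1 := Submodule.finrank_add_le_finrank_add_finrank (L i) (rad i)
    rw [hLsup] at h1
    exact h1.trans (Nat.add_le_add_left (hraddim i) _)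
  have hnd : ∀ i, ∀ u ∈ L i, (∀ v ∈ L i, β u (v : V) = 0) → u = 0 := by
    intro i u hu h
    have h1 : u ∈ rad i := by
      refine hrad2 i u (hLW i hu) fun v hv => ?_
      rw [← hLsup i] at hv
      obtain ⟨l, hl, s, hs, rfl⟩ := Submodule.mem_sup.1 hv
      rw [Submodule.coe_add, map_add, h l hl, hβ.symm u s, hrad1 i s hs u (hLW i hu), add_zero]
    have h2 : u ∈ L i ⊓ rad i := ⟨hu, h1⟩
    rw [hLinf] at h2
    exact (Submodule.mem_bot _).1 h2
  have hnd' : ∀ i, ∀ v ∈ L i, (∀ u ∈ L i, β u (v : V) = 0) → v = 0 := by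
    intro i v hv h
    refine hnd i v hv fun u hu => ?_
    rw [hβ.symm]
    exact h u hu
  have hsum : ∀ i, ∀ u ∈ L i, ∀ p : Fin n → U, (∀ j, p j ∈ L j) →
      β u (∑ j, (p j : V)) = β u (p i : V) := by
    intro i u hu p hp
    rw [map_sum]
    refine Finset.sum_eq_single i (fun j _ hji => ?_) (fun h => absurd (Finset.mem_univ i) h)
    exact horth i j (Ne.symm hji) u (hLW i hu) _ (hLW j (hp j))
  refine ⟨L, fun i => ?_, fun i u hu hu0 => ?_, fun x => ?_, ?_⟩
  · have h1 := hLW i
    rw [hWd] at h1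
    exact h1
  · by_contra hc
    push Not at hc
    exact hu0 (hnd i u hu hc)
  · have hex : ∀ i, ∃ p : U, p ∈ L i ∧ ∀ u ∈ L i, T i u (p : V) = T i u x := by
      intro i
      obtain ⟨Φ, hΦ⟩ : ∃ Φ : L i →ₗ[ZMod 2] Module.Dual (ZMod 2) (L i),
          ∀ (v u : L i), Φ v u = T i (u : U) ((v : U) : V) :=
        ⟨(((T i).compl₂ (U.subtype ∘ₗ (L i).subtype)).comp (L i).subtype).flip,
          fun v u => rfl⟩
      have hinj : Function.Injective Φ := by
        rw [injective_iff_map_eq_zero]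
        intro v hv
        apply Subtype.ext
        refine hnd' i _ v.2 fun u hu => ?_
        rw [hW i u (hLW i hu)]
        have h1 := hΦ v ⟨u, hu⟩
        rw [hv, LinearMap.zero_apply] at h1
        have h2 : T i u ((v : U) : V) = 0 := h1.symm
        rw [h2, zero_smul]
      have hsurj : Function.Surjective Φ :=
        (LinearMap.injective_iff_surjective_of_finrank_eq_finrank
          (Subspace.dual_finrank_eq (K := ZMod 2) (V := L i)).symm).1 hinj
      obtain ⟨p, hp⟩ := hsurj ((T i).flip x ∘ₗ (L i).subtype)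
      refine ⟨p, p.2, fun u hu => ?_⟩
      have h1 := hΦ p ⟨u, hu⟩
      rw [hp] at h1
      exact h1.symm
    choose p hpL hp using hex
    refine ⟨p, ⟨hpL, fun i u hu => ?_⟩, ?_⟩
    · rw [map_sub, hsum i u hu p hpL, hW i u (hLW i hu) x, hW i u (hLW i hu) (p i), hp i u hu,
        sub_self]
    · rintro p' ⟨hp'L, hp'⟩
      funext i
      have h1 : p' i - p i = 0 := by
        refine hnd' i _ ((L i).sub_mem (hp'L i) (hpL i)) fun u hu => ?_
        have h2 := hp' i u hu
        rw [map_sub, hsum i u hu p' hp'L, sub_eq_zero] at h2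
        rw [Submodule.coe_sub, map_sub, ← h2, hW i u (hLW i hu) x, hW i u (hLW i hu) (p i),
          hp i u hu, sub_self]
      exact sub_eq_zero.1 h1
  · have h1 : ∑ i, finrank (ZMod 2) (W i) ≤ ∑ i, (finrank (ZMod 2) (L i) + D) :=
      Finset.sum_le_sum fun i _ => hLdim i
    rw [Finset.sum_add_distrib, Finset.sum_const, Finset.card_univ, Fintype.card_fin,
      smul_eq_mul] at h1
    have h2 : finrank (ZMod 2) V ≤ ∑ i, finrank (ZMod 2) (W i) + D := by
      rw [hWd]
      exact hdim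
    have h3 : (n + 1) * D = n * D + D := by ring
    omega

end Pool.Agent.Y438.QB
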